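import Pool.Agent.D0H36.LW.Stm
import Pool.Agent.D0H73.BL.ClsP

/-!
Module BOW of project LW (helper36): the bow tie and the book graphs.

Author: helper6.
-/

set_option autoImplicit false

namespace Pool.Agent.D0H6.LW

open Polynomial Pool.Agent.H207R2.BL Pool.Agent.Y865.RF Pool.Agent.R814.BL Pool.Agent.D0H36.BL
open Pool.Agent.D0H36.LW (S_BOW)
open Pool.Agent.D0H73.BL (wk_sym walk_first)

/-! ### the last vertex is joined to a clique -/

theorem chr_last {n : ℕ} (G : SimpleGraph (Fin (n + 1))) (S : Finset (Fin n))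
    (hS : ∀ i : Fin n, G.Adj (Fin.last n) i.castSucc ↔ i ∈ S)
    (hc : ∀ i ∈ S, ∀ j ∈ S, i ≠ j → G.Adj i.castSucc j.castSucc) :
    chr G = chr (G.comap Fin.castSucc) * (X - (S.card : ℝ[X])) := by
  classical
  refine (eq_chr (p := chr (G.comap Fin.castSucc) * (X - (S.card : ℝ[X]))) ?_).symm
  intro k
  rw [eval_mul, chr_spec _ k, card_colorings, card_colorings, eval_sub, eval_X, eval_natCast]
  let e : {g : Fin (n + 1) → Fin k // Proper G g} ≃
      {x : (Fin n → Fin k) × Fin k // Proper (G.comap Fin.castSucc) x.1 ∧ x.2 ∉ S.image x.1} :=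
    { toFun := fun g => ⟨(fun i => g.1 i.castSucc, g.1 (Fin.last n)), fun a b hab => g.2 _ _ hab, by
        intro h
        rw [Finset.mem_image] at h
        obtain ⟨i, hi, h2⟩ := h
        exact g.2 _ _ ((hS i).2 hi) h2.symm⟩
      invFun := fun x => ⟨Fin.snoc (α := fun _ => Fin k) x.1.1 x.1.2, by
        have key : ∀ i : Fin n, i ∈ S → x.1.1 i ≠ x.1.2 := fun i hi h =>
          x.2.2 (Finset.mem_image.2 ⟨i, hi, h⟩)
        intro a b
        refine Fin.lastCases ?_ (fun a => ?_) a <;> refine Fin.lastCases ?_ (fun b => ?_) b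
        · intro hab
          exact absurd hab (G.loopless.irrefl _)
        · intro hab
          simp only [Fin.snoc_last, Fin.snoc_castSucc]
          exact (key b ((hS b).1 hab)).symm
        · intro hab
          simp only [Fin.snoc_last, Fin.snoc_castSucc]
          exact key a ((hS a).1 hab.symm)
        · intro hab
          simp only [Fin.snoc_castSucc]
          exact x.2.1 a b hab⟩
      left_inv := by
        intro g
        apply Subtype.ext
        funext i
        refine Fin.lastCases ?_ (fun i => ?_) i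
        · simp only [Fin.snoc_last]
        · simp only [Fin.snoc_castSucc]
      right_inv := by
        intro x
        apply Subtype.ext
        apply Prod.ext
        · funext i
          simp only [Fin.snoc_castSucc]
        · simp only [Fin.snoc_last] }
  have h1 : ∀ a : Fin n → Fin k,
      (Nat.card {b : Fin k // Proper (G.comap Fin.castSucc) a ∧ b ∉ S.image a} : ℝ) =
        if Proper (G.comap Fin.castSucc) a then ((k : ℝ) - S.card) else 0 := by
    intro a
    split_ifs with ha
    · have h2 : (S.image a).card = S.card := by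
        apply Finset.card_image_of_injOn
        intro i hi j hj hij
        by_contra hne
        exact ha i j (hc i hi j hj hne) hij
      have h3 : Nat.card {b : Fin k // Proper (G.comap Fin.castSucc) a ∧ b ∉ S.image a} =
          ((S.image a)ᶜ).card := by
        rw [Nat.card_eq_fintype_card, Fintype.card_subtype]
        congr 1
        ext b
        simp only [Finset.mem_filter, Finset.mem_univ, true_and, Finset.mem_compl, ha]
      rw [h3, Finset.card_compl, h2, Fintype.card_fin, Nat.cast_sub]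
      rw [← h2]
      calc (S.image a).card ≤ Fintype.card (Fin k) := Finset.card_le_univ _
        _ = k := Fintype.card_fin k
    · have h4 : IsEmpty {b : Fin k // Proper (G.comap Fin.castSucc) a ∧ b ∉ S.image a} :=
        ⟨fun b => ha b.2.1⟩
      rw [Nat.card_of_isEmpty, Nat.cast_zero]
  rw [Nat.card_congr e, Nat.card_congr (Equiv.subtypeProdEquivSigmaSubtype
    (fun (a : Fin n → Fin k) (b : Fin k) => Proper (G.comap Fin.castSucc) a ∧ b ∉ S.image a)),
    Nat.card_sigma, Nat.cast_sum, Finset.sum_congr rfl (fun a _ => h1 a), ← Finset.sum_filter,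
    Finset.sum_const, nsmul_eq_mul, Nat.card_eq_fintype_card, Fintype.card_subtype]

/-- no vertices -/
theorem chr_zero (G : SimpleGraph (Fin 0)) : chr G = 1 := by
  refine (eq_chr (p := 1) ?_).symm
  intro k
  rw [eval_one, card_colorings]
  have : Unique {g : Fin 0 → Fin k // Proper G g} :=
    { default := ⟨fun i => i.elim0, fun a => a.elim0⟩
      uniq := fun g => Subtype.ext (funext fun i => i.elim0) }
  rw [Nat.card_unique, Nat.cast_one]

/-! ### the book graphs -/

theorem book_comap (n : ℕ) : (book (n + 1)).comap Fin.castSucc = book n := by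
  ext i j
  simp only [SimpleGraph.comap_adj]
  change (i.castSucc ≠ j.castSucc ∧ _) ↔ (i ≠ j ∧ _)
  rw [Ne, Fin.castSucc_inj]
  rfl

theorem book_step (n : ℕ) : chr (book (n + 1)) =
    chr (book n) * (X - (((Finset.univ.filter fun i : Fin n => i.1 < 2).card : ℕ) : ℝ[X])) := by
  rw [← book_comap n]
  apply chr_last
  · intro i
    simp only [Finset.mem_filter, Finset.mem_univ, true_and]
    change (Fin.last n ≠ i.castSucc ∧ (n < 2 ∨ i.1 < 2)) ↔ _
    have := i.2
    constructor
    · rintro ⟨-, h | h⟩ <;> omega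
    · intro h
      exact ⟨(Fin.castSucc_lt_last i).ne', Or.inr h⟩
  · intro i hi j hj hij
    simp only [Finset.mem_filter, Finset.mem_univ, true_and] at hi hj
    exact ⟨fun h => hij (Fin.castSucc_inj.1 h), Or.inl hi⟩

theorem chr_book (m : ℕ) : chr (book (m + 2)) = X * (X - 1) * (X - 2) ^ m := by
  induction m with
  | zero =>
    rw [book_step, book_step, chr_zero]
    have h0 : (Finset.univ.filter fun i : Fin 0 => i.1 < 2).card = 0 := by decide
    have h1 : (Finset.univ.filter fun i : Fin 1 => i.1 < 2).card = 1 := by decide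
    rw [h0, h1]
    simp
  | succ m ih =>
    rw [show m + 1 + 2 = (m + 2) + 1 by ring, book_step, ih]
    have h2 : (Finset.univ.filter fun i : Fin (m + 2) => i.1 < 2).card = 2 := by
      have e : (Finset.univ.filter fun i : Fin (m + 2) => i.1 < 2) =
          {(⟨0, by omega⟩ : Fin (m + 2)), ⟨1, by omega⟩} := by
        ext i
        simp only [Finset.mem_filter, Finset.mem_univ, true_and, Finset.mem_insert,
          Finset.mem_singleton, Fin.ext_iff]
        omega
      rw [e, Finset.card_pair]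
      intro h
      rw [Fin.ext_iff] at h
      simp at h
    rw [h2]
    push_cast
    ring

/-! ### the bow tie -/

/-- the induced subgraphs of the bow tie: `0` is joined to all, `1` to `2`, `3` to `4` -/
def bt (n : ℕ) : SimpleGraph (Fin n) where
  Adj i j := i ≠ j ∧ (i.1 = 0 ∨ j.1 = 0 ∨ (i.1 = 1 ∧ j.1 = 2) ∨ (i.1 = 2 ∧ j.1 = 1) ∨
    (i.1 = 3 ∧ j.1 = 4) ∨ (i.1 = 4 ∧ j.1 = 3))
  symm := ⟨fun _ _ h => ⟨h.1.symm, by
    rcases h.2 with h | h | h | h | h | h
    · exact Or.inr (Or.inl h)
    · exact Or.inl h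
    · exact Or.inr (Or.inr (Or.inr (Or.inl h.symm)))
    · exact Or.inr (Or.inr (Or.inl h.symm))
    · exact Or.inr (Or.inr (Or.inr (Or.inr (Or.inr h.symm))))
    · exact Or.inr (Or.inr (Or.inr (Or.inr (Or.inl h.symm))))⟩⟩
  loopless := ⟨fun _ h => h.1 rfl⟩

instance (n : ℕ) : DecidableRel (bt n).Adj := fun i j => by
  unfold bt
  exact inferInstanceAs (Decidable (_ ∧ _))

theorem bt_comap (n : ℕ) : (bt (n + 1)).comap Fin.castSucc = bt n := by
  ext i j
  simp only [SimpleGraph.comap_adj]
  change (i.castSucc ≠ j.castSucc ∧ _) ↔ (i ≠ j ∧ _)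
  rw [Ne, Fin.castSucc_inj]
  rfl

theorem chr_bt : chr (bt 5) = X * (X - 1) ^ 2 * (X - 2) ^ 2 := by
  have h0 := chr_last (bt 1) ∅ (by decide) (by decide)
  have h1 := chr_last (bt 2) {0} (by decide) (by decide)
  have h2 := chr_last (bt 3) {0, 1} (by decide) (by decide)
  have h3 := chr_last (bt 4) {0} (by decide) (by decide)
  have h4 := chr_last (bt 5) {0, 3} (by decide) (by decide)
  rw [bt_comap] at h0 h1 h2 h3 h4
  rw [h4, h3, h2, h1, h0, chr_zero]
  have c0 : (∅ : Finset (Fin 0)).card = 0 := rfl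
  have c1 : ({0} : Finset (Fin 1)).card = 1 := rfl
  have c2 : ({0, 1} : Finset (Fin 2)).card = 2 := rfl
  have c3 : ({0} : Finset (Fin 3)).card = 1 := rfl
  have c4 : ({0, 3} : Finset (Fin 4)).card = 2 := rfl
  rw [c0, c1, c2, c3, c4]
  push_cast
  ring

/-- the partner -/
def pt : Fin 5 → Fin 5 := ![0, 2, 1, 4, 3]

theorem bt_pt : ∀ i : Fin 5, i ≠ 0 → pt i ≠ 0 ∧ pt i ≠ i ∧ (bt 5).Adj i (pt i) ∧ (bt 5).Adj 0 i ∧
    (bt 5).Adj 0 (pt i) := by decide

theorem bt_two : TwoEdge (bt 5) := by
  intro Y ⟨u, hu⟩ ⟨v, hv⟩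
  by_cases h0 : (0 : Fin 5) ∈ Y
  · have hv0 : v ≠ 0 := fun h => hv (h ▸ h0)
    obtain ⟨h1, h2, h3, h4, h5⟩ := bt_pt v hv0
    by_cases hp : pt v ∈ Y
    · exact ⟨0, v, pt v, v, h0, hv, hp, hv, h4, h3.symm, fun h => h1 (congrArg Prod.fst h).symm⟩
    · exact ⟨0, v, 0, pt v, h0, hv, h0, hp, h4, h5, fun h => h2 (congrArg Prod.snd h).symm⟩
  · have hu0 : u ≠ 0 := fun h => h0 (h ▸ hu)
    obtain ⟨h1, h2, h3, h4, h5⟩ := bt_pt u hu0
    by_cases hp : pt u ∈ Y
    · exact ⟨u, 0, pt u, 0, hu, h0, hp, h0, h4.symm, h5.symm, fun h => h2 (congrArg Prod.fst h).symm⟩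
    · exact ⟨u, 0, u, pt u, hu, h0, hu, hp, h4.symm, h3, fun h => h1 (congrArg Prod.snd h).symm⟩

/-- a graph on five vertices which is not complete is planar -/
theorem cl_five {G : SimpleGraph (Fin 5)} (u v : Fin 5) (huv : u ≠ v) (h : ¬ G.Adj u v) :
    Cl (Fin 5) G := by
  constructor
  · intro hG
    obtain ⟨x, A, hx, h1, h2, -⟩ := wk_sym hG
    have hs : Function.Surjective x := Finite.surjective_of_injective hx
    obtain ⟨a, rfl⟩ := hs u
    obtain ⟨b, rfl⟩ := hs v
    have hab : a ≠ b := fun e => huv (congrArg x e)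
    obtain ⟨w, hw⟩ := h1 a b hab
    obtain ⟨t, ht, ht2⟩ := walk_first w huv
    obtain ⟨c, rfl⟩ := hs t
    have hca : c ≠ a := fun e => by
      rw [e] at ht
      exact ht.ne rfl
    have hcb : c ≠ b := fun e => by
      rw [e] at ht
      exact h ht
    have hd : ∀ a b c : Fin 5, ∃ d : Fin 5, d ≠ a ∧ d ≠ b ∧ d ≠ c := by decide
    obtain ⟨d, hda, hdb, hdc⟩ := hd a b c
    have h3 := h2 a b c d hab hdc.symm hca.symm hda.symm hcb.symm hdb.symm
    obtain ⟨w', hw'⟩ := h1 c d hdc.symm
    exact Set.disjoint_left.1 h3 (hw _ ht2) (hw' _ (by simp))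
  · rintro ⟨x, y, A, hA, hd⟩
    have h1 := Nat.card_le_card_of_injective _ (wb_inj x y A hA hd)
    rw [Nat.card_eq_fintype_card, Fintype.card_sum, Nat.card_eq_fintype_card] at h1
    simp only [Fintype.card_fin] at h1
    omega

/-- Module BOW. -/
theorem t_BOW : S_BOW := by
  refine ⟨⟨bt 5, cl_five 1 3 (by decide) (by decide), bt_two, chr_bt⟩, ?_⟩
  intro h hh
  obtain ⟨m, rfl⟩ := Nat.exists_eq_add_of_le' hh
  rw [chr_book m]
  simp

end Pool.Agent.D0H6.LW
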