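import Pool.Agent.D0H36.LW.Stm2
import Pool.Agent.D0H6.LW.Bow

/-!
Module SIZE of project LW (helper36): the complete bipartite graphs `K_{2,m}` against the book graphs.

Author: helper6.
-/

set_option autoImplicit false

namespace Pool.Agent.D0H6.LW

open Polynomial Pool.Agent.H207R2.BL Pool.Agent.Y865.RF Pool.Agent.R814.BL Pool.Agent.D0H36.BL
open Pool.Agent.D0H36.LW (S_BOW S_SIZE Triv)

/-- `K_{2,m}` -/
def kk (m : ℕ) : SimpleGraph (Fin (m + 2)) where
  Adj i j := i ≠ j ∧ ((i.1 < 2 ∧ 2 ≤ j.1) ∨ (2 ≤ i.1 ∧ j.1 < 2))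
  symm := ⟨fun _ _ h => ⟨h.1.symm, h.2.elim (fun h => Or.inr ⟨h.2, h.1⟩) (fun h => Or.inl ⟨h.2, h.1⟩)⟩⟩
  loopless := ⟨fun _ h => h.1 rfl⟩

theorem kk_le (m : ℕ) : kk m ≤ book (m + 2) := by
  intro i j h
  exact ⟨h.1, h.2.elim (fun h => Or.inl h.1) (fun h => Or.inr h.2)⟩

theorem kk_cl (m : ℕ) (hm : 1 ≤ m) : Cl (Fin (m + 2)) (kk m) :=
  hCL.mono _ _ _ (kk_le m) (hBK (m + 2) (by omega)).1

theorem kk_two (m : ℕ) (hm : 2 ≤ m) : TwoEdge (kk m) := by
  intro Y ⟨u, hu⟩ ⟨v, hv⟩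
  let v0 : Fin (m + 2) := ⟨0, by omega⟩
  let v1 : Fin (m + 2) := ⟨1, by omega⟩
  let y : Fin (m + 2) := ⟨2, by omega⟩
  let z : Fin (m + 2) := ⟨3, by omega⟩
  have h01 : v0 ≠ v1 := by
    intro h
    have := congrArg Fin.val h
    simp [v0, v1] at this
  have hyz : y ≠ z := by
    intro h
    have := congrArg Fin.val h
    simp [y, z] at this
  have hv0 : ∀ i : Fin (m + 2), 2 ≤ i.1 → v0 ≠ i ∧ (kk m).Adj v0 i := by
    intro i hi
    have h1 : v0 ≠ i := by
      intro h
      have := congrArg Fin.val h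
      simp only [v0] at this
      omega
    exact ⟨h1, h1, Or.inl ⟨by simp [v0], hi⟩⟩
  have hv1 : ∀ i : Fin (m + 2), 2 ≤ i.1 → v1 ≠ i ∧ (kk m).Adj v1 i := by
    intro i hi
    have h1 : v1 ≠ i := by
      intro h
      have := congrArg Fin.val h
      simp only [v1] at this
      omega
    exact ⟨h1, h1, Or.inl ⟨by simp [v1], hi⟩⟩
  have hcase : ∀ i : Fin (m + 2), i = v0 ∨ i = v1 ∨ 2 ≤ i.1 := by
    intro i
    rcases Nat.lt_or_ge i.1 2 with h | h
    · rcases Nat.lt_or_ge i.1 1 with h' | h'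
      · exact Or.inl (Fin.ext (by simp only [v0]; omega))
      · exact Or.inr (Or.inl (Fin.ext (by simp only [v1]; omega)))
    · exact Or.inr (Or.inr h)
  by_cases a0 : v0 ∈ Y <;> by_cases a1 : v1 ∈ Y
  · have hv2 : 2 ≤ v.1 := by
      rcases hcase v with h | h | h
      · exact absurd (h ▸ a0) hv
      · exact absurd (h ▸ a1) hv
      · exact h
    exact ⟨v0, v, v1, v, a0, hv, a1, hv, (hv0 v hv2).2, (hv1 v hv2).2,
      fun h => h01 (congrArg Prod.fst h)⟩
  · -- the edge at `i`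
    have key : ∀ i : Fin (m + 2), 2 ≤ i.1 → (i ∈ Y ∧ (kk m).Adj i v1) ∨ (i ∉ Y ∧ (kk m).Adj v0 i) := by
      intro i hi
      by_cases h : i ∈ Y
      · exact Or.inl ⟨h, (hv1 i hi).2.symm⟩
      · exact Or.inr ⟨h, (hv0 i hi).2⟩
    have hy2 : 2 ≤ y.1 := le_refl 2
    have hz2 : 2 ≤ z.1 := by simp [z]
    rcases key y hy2 with ⟨k1, k2⟩ | ⟨k1, k2⟩ <;> rcases key z hz2 with ⟨l1, l2⟩ | ⟨l1, l2⟩
    · exact ⟨y, v1, z, v1, k1, a1, l1, a1, k2, l2, fun h => hyz (congrArg Prod.fst h)⟩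
    · exact ⟨y, v1, v0, z, k1, a1, a0, l1, k2, l2, fun h => (hv0 y hy2).1 (congrArg Prod.fst h).symm⟩
    · exact ⟨v0, y, z, v1, a0, k1, l1, a1, k2, l2, fun h => (hv0 z hz2).1 (congrArg Prod.fst h)⟩
    · exact ⟨v0, y, v0, z, a0, k1, a0, l1, k2, l2, fun h => hyz (congrArg Prod.snd h)⟩
  · have key : ∀ i : Fin (m + 2), 2 ≤ i.1 → (i ∈ Y ∧ (kk m).Adj i v0) ∨ (i ∉ Y ∧ (kk m).Adj v1 i) := by
      intro i hi
      by_cases h : i ∈ Y
      · exact Or.inl ⟨h, (hv0 i hi).2.symm⟩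
      · exact Or.inr ⟨h, (hv1 i hi).2⟩
    have hy2 : 2 ≤ y.1 := le_refl 2
    have hz2 : 2 ≤ z.1 := by simp [z]
    rcases key y hy2 with ⟨k1, k2⟩ | ⟨k1, k2⟩ <;> rcases key z hz2 with ⟨l1, l2⟩ | ⟨l1, l2⟩
    · exact ⟨y, v0, z, v0, k1, a0, l1, a0, k2, l2, fun h => hyz (congrArg Prod.fst h)⟩
    · exact ⟨y, v0, v1, z, k1, a0, a1, l1, k2, l2, fun h => (hv1 y hy2).1 (congrArg Prod.fst h).symm⟩
    · exact ⟨v1, y, z, v0, a1, k1, l1, a0, k2, l2, fun h => (hv1 z hz2).1 (congrArg Prod.fst h)⟩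
    · exact ⟨v1, y, v1, z, a1, k1, a1, l1, k2, l2, fun h => hyz (congrArg Prod.snd h)⟩
  · have hu2 : 2 ≤ u.1 := by
      rcases hcase u with h | h | h
      · exact absurd (h ▸ hu) a0
      · exact absurd (h ▸ hu) a1
      · exact h
    exact ⟨u, v0, u, v1, hu, a0, hu, a1, (hv0 u hu2).2.symm, (hv1 u hu2).2.symm,
      fun h => h01 (congrArg Prod.snd h)⟩

theorem kk_proper {m k : ℕ} (g : Fin (m + 2) → Fin k) : Proper (kk m) g ↔
    ∀ i : Fin m, g i.succ.succ ≠ g 0 ∧ g i.succ.succ ≠ g 1 := by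
  constructor
  · intro h i
    refine ⟨h _ _ ⟨?_, Or.inr ⟨?_, ?_⟩⟩, h _ _ ⟨?_, Or.inr ⟨?_, ?_⟩⟩⟩
    · exact Fin.succ_ne_zero _
    · simp
    · simp
    · intro e
      have := congrArg Fin.val e
      simp at this
    · simp
    · simp
  · intro h
    have key : ∀ a b : Fin (m + 2), a.1 < 2 → 2 ≤ b.1 → g b ≠ g a := by
      intro a b ha hb
      have hb' := b.2
      have e : b = (⟨b.1 - 2, by omega⟩ : Fin m).succ.succ := by
        apply Fin.ext
        simp only [Fin.succ_mk]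
        omega
      rcases Nat.lt_or_ge a.1 1 with h1 | h1
      · have e2 : a = 0 := Fin.ext (by simp only [Fin.val_zero]; omega)
        rw [e, e2]
        exact (h _).1
      · have e2 : a = 1 := Fin.ext (by simp only [Fin.val_one]; omega)
        rw [e, e2]
        exact (h _).2
    intro a b hab
    rcases hab.2 with ⟨h1, h2⟩ | ⟨h1, h2⟩
    · exact (key a b h1 h2).symm
    · exact key b a h2 h1

/-- the chromatic polynomial of `K_{2,m}` -/
theorem chr_kk (m : ℕ) : chr (kk m) = X * (X - 1) ^ m + X * (X - 1) * (X - 2) ^ m := by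
  classical
  refine (eq_chr (p := X * (X - 1) ^ m + X * (X - 1) * (X - 2) ^ m) ?_).symm
  intro k
  rw [card_colorings]
  let e : {g : Fin (m + 2) → Fin k // Proper (kk m) g} ≃
      {x : (Fin k × Fin k) × (Fin m → Fin k) // ∀ i, x.2 i ≠ x.1.1 ∧ x.2 i ≠ x.1.2} :=
    { toFun := fun g => ⟨((g.1 0, g.1 1), fun i => g.1 i.succ.succ), (kk_proper g.1).1 g.2⟩
      invFun := fun x => ⟨Fin.cons (α := fun _ => Fin k) x.1.1.1
        (Fin.cons (α := fun _ => Fin k) x.1.1.2 x.1.2), by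
        rw [kk_proper]
        intro i
        have e1 : (1 : Fin (m + 2)) = (0 : Fin (m + 1)).succ := rfl
        rw [e1]
        simp only [Fin.cons_succ, Fin.cons_zero]
        exact x.2 i⟩
      left_inv := by
        intro g
        apply Subtype.ext
        funext i
        refine Fin.cases ?_ (fun i => ?_) i
        · rfl
        · refine Fin.cases ?_ (fun i => ?_) i
          · rfl
          · rfl
      right_inv := by
        intro x
        rfl }
  have h1 : ∀ p : Fin k × Fin k,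
      (Nat.card {f : Fin m → Fin k // ∀ i, f i ≠ p.1 ∧ f i ≠ p.2} : ℝ) =
        if p.1 = p.2 then ((k : ℝ) - 1) ^ m else ((k : ℝ) - 2) ^ m := by
    intro p
    rw [Nat.card_congr (Equiv.subtypePiEquivPi (p := fun (_ : Fin m) (c : Fin k) => c ≠ p.1 ∧ c ≠ p.2)),
      Nat.card_fun, Nat.card_eq_fintype_card (α := Fin m), Fintype.card_fin, Nat.cast_pow]
    have h3 : Nat.card {c : Fin k // c ≠ p.1 ∧ c ≠ p.2} = (({p.1, p.2} : Finset (Fin k))ᶜ).card := by
      rw [Nat.card_eq_fintype_card, Fintype.card_subtype]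
      congr 1
      ext b
      simp only [Finset.mem_filter, Finset.mem_univ, true_and, Finset.mem_compl, Finset.mem_insert,
        Finset.mem_singleton, not_or]
    have h4 : (({p.1, p.2} : Finset (Fin k))).card ≤ k := by
      calc (({p.1, p.2} : Finset (Fin k))).card ≤ Fintype.card (Fin k) := Finset.card_le_univ _
        _ = k := Fintype.card_fin k
    rw [h3, Finset.card_compl, Fintype.card_fin, Nat.cast_sub h4]
    split_ifs with hp
    · rw [hp, Finset.pair_eq_singleton, Finset.card_singleton, Nat.cast_one]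
    · rw [Finset.card_pair hp, Nat.cast_ofNat]
  rw [Nat.card_congr e, Nat.card_congr (Equiv.subtypeProdEquivSigmaSubtype
    (fun (p : Fin k × Fin k) (f : Fin m → Fin k) => ∀ i, f i ≠ p.1 ∧ f i ≠ p.2)),
    Nat.card_sigma, Nat.cast_sum, Finset.sum_congr rfl (fun a _ => h1 a), Fintype.sum_prod_type]
  have h5 : ∀ x : Fin k, ∑ y : Fin k, (if x = y then ((k : ℝ) - 1) ^ m else ((k : ℝ) - 2) ^ m) =
      ((k : ℝ) - 1) ^ m + (k - 1) * (k - 2) ^ m := by
    intro x
    have h6 : ∀ y : Fin k, (if x = y then ((k : ℝ) - 1) ^ m else ((k : ℝ) - 2) ^ m) =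
        ((k : ℝ) - 2) ^ m + if x = y then ((k : ℝ) - 1) ^ m - ((k : ℝ) - 2) ^ m else 0 := by
      intro y
      split_ifs <;> ring
    rw [Finset.sum_congr rfl (fun y _ => h6 y), Finset.sum_add_distrib, Finset.sum_const,
      Finset.sum_ite_eq, if_pos (Finset.mem_univ _), Finset.card_univ, Fintype.card_fin, nsmul_eq_mul]
    ring
  rw [Finset.sum_congr rfl (fun x _ => h5 x), Finset.sum_const, Finset.card_univ, Fintype.card_fin,
    nsmul_eq_mul]
  simp only [eval_add, eval_mul, eval_X, eval_pow, eval_sub, eval_one, eval_ofNat]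
  ring

/-- the second differences of `log (c + b ^ m)` are positive and small -/
theorem second_diff {c b : ℝ} (hc : 0 < c) (hb : 1 < b) (m : ℕ) :
    0 < Real.log (c + b ^ (m + 2)) - 2 * Real.log (c + b ^ (m + 1)) + Real.log (c + b ^ m) ∧
    Real.log (c + b ^ (m + 2)) - 2 * Real.log (c + b ^ (m + 1)) + Real.log (c + b ^ m) ≤
      c * (b - 1) ^ 2 / b ^ m := by
  have hp : ∀ n : ℕ, 0 < b ^ n := fun n => pow_pos (by linarith) n
  have h0 : 0 < c + b ^ m := by linarith [hp m]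
  have h1 : 0 < c + b ^ (m + 1) := by linarith [hp (m + 1)]
  have h2 : 0 < c + b ^ (m + 2) := by linarith [hp (m + 2)]
  set x : ℝ := c * b ^ m * (b - 1) ^ 2 / (c + b ^ (m + 1)) ^ 2 with hx
  have hx0 : 0 < x := by
    have : 0 < (b - 1) ^ 2 := by
      have : b - 1 ≠ 0 := by linarith
      positivity
    have := hp m
    positivity
  have e : Real.log (c + b ^ (m + 2)) - 2 * Real.log (c + b ^ (m + 1)) + Real.log (c + b ^ m) =
      Real.log (1 + x) := by
    have e1 : 1 + x = (c + b ^ (m + 2)) * (c + b ^ m) / (c + b ^ (m + 1)) ^ 2 := by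
      rw [hx]
      field_simp
      ring
    rw [e1, Real.log_div (by positivity) (by positivity), Real.log_mul h2.ne' h0.ne', Real.log_pow]
    push_cast
    ring
  rw [e]
  constructor
  · exact Real.log_pos (by linarith)
  · calc Real.log (1 + x) ≤ x := by
          have := Real.log_le_sub_one_of_pos (show 0 < 1 + x by linarith)
          linarith
      _ ≤ c * (b - 1) ^ 2 / b ^ m := by
          rw [hx, div_le_div_iff₀ (by positivity) (hp m)]
          have h3 : b ^ m * b ^ m ≤ (c + b ^ (m + 1)) ^ 2 := by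
            have h4 : b ^ m ≤ c + b ^ (m + 1) := by
              have : b ^ m ≤ b ^ (m + 1) := pow_le_pow_right₀ hb.le (by omega)
              linarith
            calc b ^ m * b ^ m ≤ (c + b ^ (m + 1)) * (c + b ^ (m + 1)) :=
                  mul_le_mul h4 h4 (hp m).le h1.le
              _ = _ := by ring
          calc c * b ^ m * (b - 1) ^ 2 * b ^ m = c * (b - 1) ^ 2 * (b ^ m * b ^ m) := by ring
            _ ≤ c * (b - 1) ^ 2 * (c + b ^ (m + 1)) ^ 2 :=
                mul_le_mul_of_nonneg_left h3 (by positivity)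

/-- Module SIZE. -/
theorem size : S_SIZE := by
  intro q hq t ht hT
  have hq1 : 0 < q - 1 := by linarith
  have hq2 : 0 < q - 2 := by linarith
  have hq0 : 0 < q := by linarith
  set c : ℝ := q - 1 with hc
  set b : ℝ := (q - 1) / (q - 2) with hb
  have hb1 : 1 < b := by
    rw [hb, lt_div_iff₀ hq2]
    linarith
  -- the values
  have key : ∀ m : ℕ, 2 ≤ m → ∃ n : ℤ, t * (Real.log (c + b ^ m) - Real.log c) = n * (2 * Real.pi) := by
    intro m hm
    have h1 := hT (m + 2) (kk m) (book (m + 2)) (kk_cl m (by omega)) (hBK (m + 2) (by omega)).1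
      (kk_two m hm) (hBK (m + 2) (by omega)).2.1
    have eA : (chr (kk m)).eval q = q * c ^ m + q * c * (q - 2) ^ m := by
      rw [chr_kk]
      simp only [eval_add, eval_mul, eval_X, eval_pow, eval_sub, eval_one, eval_ofNat, hc]
    have eB : (chr (book (m + 2))).eval q = q * c * (q - 2) ^ m := by
      rw [chr_book]
      simp only [eval_mul, eval_X, eval_pow, eval_sub, eval_one, eval_ofNat, hc]
    simp only at h1
    rw [eA, eB] at h1
    have hp : 0 < (q - 2) ^ m := pow_pos hq2 m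
    have hpc : 0 < c ^ m := pow_pos hq1 m
    have hA : 0 < q * c ^ m + q * c * (q - 2) ^ m := by positivity
    have hB : 0 < q * c * (q - 2) ^ m := by positivity
    rw [abs_of_pos hA, abs_of_pos hB, Circle.exp_eq_exp] at h1
    obtain ⟨n, hn⟩ := h1
    refine ⟨n, ?_⟩
    have e1 : q * c ^ m + q * c * (q - 2) ^ m = (c + b ^ m) / c * (q * c * (q - 2) ^ m) := by
      rw [hb, div_pow]
      field_simp
      ring
    have hcb : 0 < c + b ^ m := by
      have : 0 < b ^ m := pow_pos (by linarith) m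
      linarith
    rw [e1, Real.log_mul (by positivity) hB.ne', Real.log_div hcb.ne' hq1.ne'] at hn
    linarith
  -- choose `m`
  obtain ⟨n0, hn0⟩ := pow_unbounded_of_one_lt (|t| * (c * (b - 1) ^ 2) / (2 * Real.pi)) hb1
  have hpi : 0 < 2 * Real.pi := by positivity
  have hb' : |t| * (c * (b - 1) ^ 2) / (2 * Real.pi) < b ^ (n0 + 2) :=
    hn0.trans_le (pow_le_pow_right₀ hb1.le (by omega))
  obtain ⟨h1, h2⟩ := second_diff hq1 hb1 (n0 + 2)
  obtain ⟨k0, hk0⟩ := key (n0 + 2) (by omega)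
  obtain ⟨k1, hk1⟩ := key (n0 + 2 + 1) (by omega)
  obtain ⟨k2, hk2⟩ := key (n0 + 2 + 2) (by omega)
  set D : ℝ := Real.log (c + b ^ (n0 + 2 + 2)) - 2 * Real.log (c + b ^ (n0 + 2 + 1)) +
    Real.log (c + b ^ (n0 + 2)) with hD
  have e : t * D = ((k2 - 2 * k1 + k0 : ℤ) : ℝ) * (2 * Real.pi) := by
    push_cast
    rw [hD]
    linarith
  have h3 : |t * D| < 2 * Real.pi := by
    rw [abs_mul, abs_of_pos h1]
    have hbp : 0 < b ^ (n0 + 2) := pow_pos (by linarith) _
    calc |t| * D ≤ |t| * (c * (b - 1) ^ 2 / b ^ (n0 + 2)) := mul_le_mul_of_nonneg_left h2 (abs_nonneg t)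
      _ = |t| * (c * (b - 1) ^ 2) / b ^ (n0 + 2) := by ring
      _ < 2 * Real.pi := by
          rw [div_lt_iff₀ hbp]
          rw [div_lt_iff₀ hpi] at hb'
          linarith
  have h4 : (k2 - 2 * k1 + k0 : ℤ) ≠ 0 := by
    intro h
    rw [h, Int.cast_zero, zero_mul] at e
    rcases mul_eq_zero.1 e with h5 | h5
    · exact ht h5
    · exact h1.ne' h5
  have h5 : (1 : ℝ) ≤ |((k2 - 2 * k1 + k0 : ℤ) : ℝ)| := by
    rw [← Int.cast_abs]
    exact_mod_cast Int.one_le_abs h4
  rw [e, abs_mul, abs_of_pos hpi] at h3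
  nlinarith

theorem t_SIZE : S_BOW → S_SIZE := fun _ => size

end Pool.Agent.D0H6.LW
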