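import Pool.Agent.D0H36.LW.Stm4
import Pool.Agent.D0H6.LW.Size

/-!
Module ARG of project LW (helper36): arguments and sizes at complex points.

Author: helper6.
-/

set_option autoImplicit false

namespace Pool.Agent.D0H6.LW

open Polynomial Pool.Agent.H207R2.BL Pool.Agent.R814.BL Pool.Agent.D0H36.BL Filter Topology
open Pool.Agent.D0H36.LW (S_ARG S_PH Triv phase)

/-- Module PH. -/
theorem t_PH : S_PH := by
  intro k t v w hv hw
  unfold phase
  rw [← Circle.exp_add, Circle.exp_eq_exp]
  have h1 := Complex.arg_mul_coe_angle hv hw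
  rw [← Real.Angle.coe_add, Real.Angle.angle_eq_iff_two_pi_dvd_sub] at h1
  obtain ⟨n, hn⟩ := h1
  refine ⟨k * n, ?_⟩
  rw [norm_mul, Real.log_mul (norm_ne_zero_iff.2 hv) (norm_ne_zero_iff.2 hw)]
  push_cast
  linear_combination (k : ℝ) * hn

/-- a geometric sequence tends to zero, without taking the value -/
theorem geo_tendsto {β e0 : ℂ} (hβ : ‖β‖ < 1) (hβ0 : β ≠ 0) (he : e0 ≠ 0) :
    Tendsto (fun m : ℕ => e0 * β ^ m) atTop (𝓝[≠] 0) := by
  refine tendsto_nhdsWithin_iff.2 ⟨?_, Eventually.of_forall fun m => mul_ne_zero he (pow_ne_zero _ hβ0)⟩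
  have h := (tendsto_pow_atTop_nhds_zero_of_norm_lt_one hβ).const_mul e0
  rwa [mul_zero] at h

theorem one_add_tendsto {β e0 : ℂ} (hβ : ‖β‖ < 1) (hβ0 : β ≠ 0) (he : e0 ≠ 0) :
    Tendsto (fun m : ℕ => Complex.log (1 + e0 * β ^ m)) atTop (𝓝 0) := by
  have h1 : Tendsto (fun m : ℕ => 1 + e0 * β ^ m) atTop (𝓝 (1 + 0)) :=
    ((geo_tendsto hβ hβ0 he).mono_right nhdsWithin_le_nhds).const_add 1
  rw [add_zero] at h1
  have h2 := (continuousAt_clog (x := 1) (by simp)).tendsto.comp h1
  rwa [Complex.log_one] at h2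

theorem phase_log (k : ℤ) (t : ℝ) (w : ℂ) :
    phase k t w = Circle.exp (k * (Complex.log w).im + t * (Complex.log w).re) := by
  unfold phase
  rw [Complex.log_im, Complex.log_re]

/-- the phase of `1 + e m` tends to one -/
theorem phase_tendsto (k : ℤ) (t : ℝ) {β e0 : ℂ} (hβ : ‖β‖ < 1) (hβ0 : β ≠ 0) (he : e0 ≠ 0) :
    Tendsto (fun m : ℕ => phase k t (1 + e0 * β ^ m)) atTop (𝓝 1) := by
  have h1 := one_add_tendsto hβ hβ0 he
  have h2 : Tendsto (fun m : ℕ => (k : ℝ) * (Complex.log (1 + e0 * β ^ m)).im +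
      t * (Complex.log (1 + e0 * β ^ m)).re) atTop (𝓝 ((k : ℝ) * (0 : ℂ).im + t * (0 : ℂ).re)) :=
    ((Complex.continuous_im.tendsto _ |>.comp h1).const_mul _).add
      ((Complex.continuous_re.tendsto _ |>.comp h1).const_mul _)
  have h3 : (k : ℝ) * (0 : ℂ).im + t * (0 : ℂ).re = 0 := by simp
  rw [h3] at h2
  have h4 := (Circle.exp.continuous.tendsto 0).comp h2
  rw [Circle.exp_zero] at h4
  refine h4.congr fun m => ?_
  rw [phase_log]
  rfl

/-- the core: the phases of `1 + e0 β ^ m` are not all one -/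
theorem core (k : ℤ) (t : ℝ) (hkt : k ≠ 0 ∨ t ≠ 0) {β e0 : ℂ} (hβ : ‖β‖ < 1) (hβi : β.im ≠ 0)
    (he : e0 ≠ 0) (h : ∀ᶠ m : ℕ in atTop, phase k t (1 + e0 * β ^ m) = 1) : False := by
  have hβ0 : β ≠ 0 := fun h0 => hβi (by rw [h0, Complex.zero_im])
  set L : ℕ → ℂ := fun m => Complex.log (1 + e0 * β ^ m) with hL
  have h1 : Tendsto L atTop (𝓝 0) := one_add_tendsto hβ hβ0 he
  -- the angle is zero
  set θ : ℕ → ℝ := fun m => (k : ℝ) * (L m).im + t * (L m).re with hθ
  have h2 : Tendsto θ atTop (𝓝 0) := by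
    have h3 : Tendsto θ atTop (𝓝 ((k : ℝ) * (0 : ℂ).im + t * (0 : ℂ).re)) :=
      ((Complex.continuous_im.tendsto _ |>.comp h1).const_mul _).add
        ((Complex.continuous_re.tendsto _ |>.comp h1).const_mul _)
    have h4 : (k : ℝ) * (0 : ℂ).im + t * (0 : ℂ).re = 0 := by simp
    rwa [h4] at h3
  have h5 : ∀ᶠ m : ℕ in atTop, θ m = 0 := by
    have h6 : ∀ᶠ m : ℕ in atTop, |θ m| < 2 * Real.pi := by
      have := h2.abs
      rw [abs_zero] at this
      exact this.eventually_lt_const (by positivity)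
    filter_upwards [h, h6] with m hm hm6
    rw [phase_log] at hm
    have hm' : Circle.exp (θ m) = 1 := hm
    rw [← Circle.exp_zero, Circle.exp_eq_exp] at hm'
    obtain ⟨n, hn⟩ := hm'
    rw [zero_add] at hn
    have hpi : 0 < 2 * Real.pi := by positivity
    rw [hn, abs_mul, abs_of_pos hpi] at hm6
    have h7 : |(n : ℝ)| < 1 := by
      by_contra hc
      push Not at hc
      nlinarith
    have h8 : n = 0 := by
      rw [← Int.cast_abs] at h7
      have : |n| < 1 := by exact_mod_cast h7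
      exact Int.abs_lt_one_iff.1 this
    rw [hn, h8, Int.cast_zero, zero_mul]
  -- the logarithm divided by `e m`
  have hge := geo_tendsto hβ hβ0 he
  have h9 : Tendsto (fun m : ℕ => (e0 * β ^ m)⁻¹ * L m) atTop (𝓝 1) := by
    have hd := (Complex.hasDerivAt_log (z := 1) (by simp)).tendsto_slope_zero
    have hd2 := hd.comp hge
    rw [inv_one] at hd2
    refine hd2.congr fun m => ?_
    simp only [Function.comp, Complex.log_one, sub_zero, smul_eq_mul, hL]
  have h10 : Tendsto (fun m : ℕ => ((e0 * β ^ (m + 1))⁻¹ * L (m + 1)) * β *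
      ((e0 * β ^ m)⁻¹ * L m)⁻¹) atTop (𝓝 β) := by
    have := ((h9.comp (tendsto_add_atTop_nat 1)).mul_const β).mul (h9.inv₀ one_ne_zero)
    rw [inv_one, one_mul, mul_one] at this
    exact this
  have h11 : Tendsto (fun m : ℕ => L (m + 1) / L m) atTop (𝓝 β) := by
    refine h10.congr fun m => ?_
    have hb : e0 * β ^ (m + 1) ≠ 0 := mul_ne_zero he (pow_ne_zero _ hβ0)
    have e2 : ((e0 * β ^ m)⁻¹ * L m)⁻¹ = e0 * β ^ m * (L m)⁻¹ := by
      rw [mul_inv, inv_inv]
    rw [e2, div_eq_mul_inv]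
    calc (e0 * β ^ (m + 1))⁻¹ * L (m + 1) * β * (e0 * β ^ m * (L m)⁻¹)
        = ((e0 * β ^ (m + 1))⁻¹ * (e0 * β ^ (m + 1))) * (L (m + 1) * (L m)⁻¹) := by ring
      _ = L (m + 1) * (L m)⁻¹ := by rw [inv_mul_cancel₀ hb, one_mul]
  -- the quotients are real
  have h12 : ∀ᶠ m : ℕ in atTop, (L (m + 1) / L m).im = 0 := by
    have h5' : ∀ᶠ m : ℕ in atTop, θ (m + 1) = 0 := (tendsto_add_atTop_nat 1).eventually h5
    filter_upwards [h5, h5'] with m hm hm'
    have hc0 : ((t : ℂ) - k * Complex.I) ≠ 0 := by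
      intro h0
      have hre := congrArg Complex.re h0
      have him := congrArg Complex.im h0
      simp at hre him
      rcases hkt with h | h
      · exact h him
      · exact h hre
    have hre : ∀ w : ℂ, (((t : ℂ) - k * Complex.I) * w).re = k * w.im + t * w.re := by
      intro w
      simp
      ring
    have e1 : L (m + 1) / L m =
        (((t : ℂ) - k * Complex.I) * L (m + 1)) / (((t : ℂ) - k * Complex.I) * L m) := by
      rw [mul_div_mul_left _ _ hc0]
    rw [e1, Complex.div_im, hre, hre]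
    change _ * (θ m) / _ - θ (m + 1) * _ / _ = 0
    rw [hm, hm']
    simp
  have h13 := (Complex.continuous_im.tendsto _).comp h11
  have h14 : Tendsto (fun m : ℕ => (L (m + 1) / L m).im) atTop (𝓝 0) :=
    tendsto_const_nhds.congr' (h12.mono fun m hm => hm.symm)
  exact hβi (tendsto_nhds_unique h13 h14)

/-- Module ARG. -/
theorem t_ARG : S_ARG := by
  intro z hzi hzr hroot k t hkt hT
  have hz0 : z ≠ 0 := fun h => hzi (by rw [h, Complex.zero_im])
  have hz1 : z - 1 ≠ 0 := fun h => hzi (by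
    have := congrArg Complex.im h
    simpa using this)
  have hz2 : z - 2 ≠ 0 := fun h => hzi (by
    have := congrArg Complex.im h
    simpa using this)
  set b : ℂ := (z - 1) / (z - 2) with hb
  have hb0 : b ≠ 0 := div_ne_zero hz1 hz2
  have hbi : b.im ≠ 0 := by
    intro h
    have e : z * (b - 1) = 2 * b - 1 := by
      rw [hb]
      field_simp
      ring
    have hbr : b = (b.re : ℂ) := by
      apply Complex.ext
      · simp
      · simp [h]
    rw [hbr] at e
    have him := congrArg Complex.im e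
    simp at him
    rcases him with h1 | h1
    · exact hzi h1
    · -- `b = 1` is impossible
      have hb1 : b = 1 := by
        rw [hbr]
        have : b.re = 1 := by linarith
        rw [this, Complex.ofReal_one]
      rw [hb, div_eq_one_iff_eq hz2] at hb1
      have := congrArg Complex.re hb1
      simp at this
  have hbn : ‖b‖ ≠ 1 := by
    intro h
    rw [hb, norm_div, div_eq_one_iff_eq (norm_ne_zero_iff.2 hz2)] at h
    have h1 : Complex.normSq (z - 1) = Complex.normSq (z - 2) := by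
      rw [Complex.normSq_eq_norm_sq, Complex.normSq_eq_norm_sq, h]
    rw [Complex.normSq_apply, Complex.normSq_apply] at h1
    simp at h1
    apply hzr
    nlinarith
  -- the quotients of the values
  have key : ∀ m : ℕ, 2 ≤ m → 1 + b ^ m / (z - 1) ≠ 0 ∧ phase k t (1 + b ^ m / (z - 1)) = 1 := by
    intro m hm
    have hA0 := hroot _ (kk m) (kk_cl m (by omega))
    have hB0 := hroot _ (book (m + 2)) (hBK (m + 2) (by omega)).1
    have h1 := hT (m + 2) (kk m) (book (m + 2)) (kk_cl m (by omega)) (hBK (m + 2) (by omega)).1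
      (kk_two m hm) (hBK (m + 2) (by omega)).2.1
    have eA : aeval z (chr (kk m)) = z * (z - 1) ^ m + z * (z - 1) * (z - 2) ^ m := by
      rw [chr_kk]
      simp only [map_add, map_mul, map_pow, map_sub, aeval_X, map_one, map_ofNat]
    have eB : aeval z (chr (book (m + 2))) = z * (z - 1) * (z - 2) ^ m := by
      rw [chr_book]
      simp only [map_mul, map_pow, map_sub, aeval_X, map_one, map_ofNat]
    have e1 : aeval z (chr (kk m)) = (1 + b ^ m / (z - 1)) * aeval z (chr (book (m + 2))) := by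
      rw [eA, eB, hb, div_pow]
      have : (z - 2) ^ m ≠ 0 := pow_ne_zero _ hz2
      field_simp
      ring
    have h2 : 1 + b ^ m / (z - 1) ≠ 0 := by
      intro h0
      rw [h0, zero_mul] at e1
      exact hA0 e1
    refine ⟨h2, ?_⟩
    simp only at h1
    rw [e1, t_PH k t _ _ h2 hB0] at h1
    exact mul_eq_right.1 h1
  rcases lt_or_gt_of_ne hbn with hlt | hgt
  · refine core k t hkt hlt hbi (e0 := (z - 1)⁻¹) (inv_ne_zero hz1) ?_
    filter_upwards [eventually_ge_atTop 2] with m hm
    have e1 : 1 + (z - 1)⁻¹ * b ^ m = 1 + b ^ m / (z - 1) := by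
      rw [div_eq_mul_inv, mul_comm]
    rw [e1]
    exact (key m hm).2
  · have hβ : ‖b⁻¹‖ < 1 := by
      rw [norm_inv]
      exact inv_lt_one_of_one_lt₀ hgt
    have hβ0 : b⁻¹ ≠ 0 := inv_ne_zero hb0
    have hβi : (b⁻¹).im ≠ 0 := by
      rw [Complex.inv_im]
      intro h
      rw [div_eq_zero_iff] at h
      rcases h with h | h
      · exact hbi (neg_eq_zero.1 h)
      · exact hb0 (Complex.normSq_eq_zero.1 h)
    have hlim := phase_tendsto k t hβ hβ0 hz1
    -- the factorisation
    have hfac : ∀ m : ℕ, 1 + b ^ m / (z - 1) = b ^ m / (z - 1) * (1 + (z - 1) * b⁻¹ ^ m) := by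
      intro m
      have : b ^ m ≠ 0 := pow_ne_zero _ hb0
      rw [inv_pow]
      field_simp
      ring
    have hq : ∀ m : ℕ, b ^ m / (z - 1) ≠ 0 := fun m => div_ne_zero (pow_ne_zero _ hb0) hz1
    have h1e : ∀ m : ℕ, 2 ≤ m → 1 + (z - 1) * b⁻¹ ^ m ≠ 0 := by
      intro m hm h0
      apply (key m hm).1
      rw [hfac, h0, mul_zero]
    have hrel : ∀ m : ℕ, 2 ≤ m →
        phase k t (b ^ m / (z - 1)) * phase k t (1 + (z - 1) * b⁻¹ ^ m) = 1 := by
      intro m hm
      rw [← t_PH k t _ _ (hq m) (h1e m hm), ← hfac]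
      exact (key m hm).2
    have hstep : ∀ m : ℕ, 2 ≤ m → phase k t b * phase k t (1 + (z - 1) * b⁻¹ ^ (m + 1)) =
        phase k t (1 + (z - 1) * b⁻¹ ^ m) := by
      intro m hm
      have h1 := hrel m hm
      have h2 := hrel (m + 1) (by omega)
      have e1 : b ^ (m + 1) / (z - 1) = b * (b ^ m / (z - 1)) := by
        rw [pow_succ]
        ring
      rw [e1, t_PH k t _ _ hb0 (hq m), ← h1] at h2
      have h3 : phase k t (b ^ m / (z - 1)) *
          (phase k t b * phase k t (1 + (z - 1) * b⁻¹ ^ (m + 1))) =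
          phase k t (b ^ m / (z - 1)) * phase k t (1 + (z - 1) * b⁻¹ ^ m) := by
        rw [← h2]
        rw [mul_left_comm, mul_assoc]
      exact mul_left_cancel h3
    have hχb : phase k t b = 1 := by
      have h1 : Tendsto (fun m : ℕ => phase k t b * phase k t (1 + (z - 1) * b⁻¹ ^ (m + 1))) atTop
          (𝓝 (phase k t b * 1)) := (hlim.comp (tendsto_add_atTop_nat 1)).const_mul _
      have h2 : Tendsto (fun m : ℕ => phase k t b * phase k t (1 + (z - 1) * b⁻¹ ^ (m + 1))) atTop
          (𝓝 1) := by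
        refine hlim.congr' ?_
        filter_upwards [eventually_ge_atTop 2] with m hm
        exact (hstep m hm).symm
      have h3 := tendsto_nhds_unique h1 h2
      rwa [mul_one] at h3
    have hconst : ∀ m : ℕ, phase k t (1 + (z - 1) * b⁻¹ ^ (m + 2)) =
        phase k t (1 + (z - 1) * b⁻¹ ^ 2) := by
      intro m
      induction m with
      | zero => rfl
      | succ m ih =>
        have h1 := hstep (m + 2) (by omega)
        rw [hχb, one_mul] at h1
        rw [← ih, ← h1]
    have hone : phase k t (1 + (z - 1) * b⁻¹ ^ 2) = 1 := by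
      have h1 := hlim.comp (tendsto_add_atTop_nat 2)
      have h2 : Tendsto (fun _ : ℕ => phase k t (1 + (z - 1) * b⁻¹ ^ 2)) atTop (𝓝 1) :=
        h1.congr fun m => hconst m
      exact tendsto_nhds_unique tendsto_const_nhds h2
    refine core k t hkt hβ hβi hz1 ?_
    filter_upwards [eventually_ge_atTop 2] with m hm
    obtain ⟨n, rfl⟩ := Nat.exists_eq_add_of_le' hm
    rw [hconst n, hone]

end Pool.Agent.D0H6.LW
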